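import Mathlib
import Pool.Agent.H788R2.Trunc3

/-!
# Truncated cosine transforms of the Xi kernel with four non-real zeros

`F_R(z) = ∫_0^R Φ(x) cos(z x) dx` with Riemann's kernel `Φ`. For every `R ≥ 10` the function `F_R`
has at least four distinct non-real zeros `± w, ± conj w` (with `Re w ≠ 0`, `Im w ≠ 0`).
The existence of one non-real zero of large imaginary part is the theorem
`Pool.Agent.H788R2.Trunc.main` of the starting library; it is combined with the positivity of `F_R`
on the imaginary axis and the symmetries of the zero set.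
-/

set_option autoImplicit false

namespace Pool.Agent.Results.MP_d99112_an.FourNonrealZeros

open MeasureTheory

/-- Riemann's kernel in the normalisation of the problem file:
`Φ(t) = 2 ∑_{n ≥ 1} (2 π² n⁴ e^{9t/2} - 3 π n² e^{5t/2}) exp(-π n² e^{2t})` (the index is shifted
by one). -/
noncomputable def Phi (t : ℝ) : ℝ :=
  2 * ∑' n : ℕ, (2 * Real.pi ^ 2 * ((n : ℝ) + 1) ^ 4 * Real.exp (9 * t / 2)
    - 3 * Real.pi * ((n : ℝ) + 1) ^ 2 * Real.exp (5 * t / 2)) *
      Real.exp (-(Real.pi * ((n : ℝ) + 1) ^ 2 * Real.exp (2 * t)))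

/-- `F_R(z) = ∫_0^R Φ(x) cos(z x) dx`. -/
noncomputable def F (R : ℝ) (z : ℂ) : ℂ :=
  ∫ x in (0 : ℝ)..R, ((Phi x : ℝ) : ℂ) * Complex.cos (z * x)

lemma Phi_two (t : ℝ) : Phi (2 * t) = 2 * Pool.Agent.Helper242.RK.Phi t := by
  unfold Phi Pool.Agent.Helper242.RK.Phi
  congr 1
  apply tsum_congr
  intro n
  have e1 : 9 * (2 * t) / 2 = 9 * t := by ring
  have e2 : 5 * (2 * t) / 2 = 5 * t := by ring
  have e3 : 2 * (2 * t) = 4 * t := by ring
  rw [e1, e2, e3]
  ring_nf

/-- Sanity: the series defining the kernel converges. -/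
lemma summable_Phi (t : ℝ) : Summable fun n : ℕ =>
    (2 * Real.pi ^ 2 * ((n : ℝ) + 1) ^ 4 * Real.exp (9 * t / 2)
    - 3 * Real.pi * ((n : ℝ) + 1) ^ 2 * Real.exp (5 * t / 2)) *
      Real.exp (-(Real.pi * ((n : ℝ) + 1) ^ 2 * Real.exp (2 * t))) := by
  have h := Pool.Agent.Helper242.RK.summable_Phi (t / 2)
  refine h.congr fun n => ?_
  have e1 : 9 * (t / 2) = 9 * t / 2 := by ring
  have e2 : 5 * (t / 2) = 5 * t / 2 := by ring
  have e3 : 4 * (t / 2) = 2 * t := by ring
  rw [e1, e2, e3]
  ring_nf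

lemma Phi_eq (t : ℝ) : Phi t = 2 * Pool.Agent.Helper242.RK.Phi (t / 2) := by
  rw [← Phi_two]; congr 1; ring

/-- Sanity: the kernel is continuous and positive. -/
lemma continuous_Phi : Continuous Phi := by
  have : Phi = fun t => 2 * Pool.Agent.Helper242.RK.Phi (t / 2) := funext Phi_eq
  rw [this]
  exact continuous_const.mul (Pool.Agent.Helper242.RK.continuous_Phi.comp (continuous_id.div_const 2))

lemma F_eq (R : ℝ) (z : ℂ) : F R z = 4 * Pool.Agent.H788R2.Trunc.H (R / 2) (2 * z) := by
  have h := intervalIntegral.integral_comp_div (a := 0) (b := R)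
    (fun x : ℝ => ((Pool.Agent.Helper242.RK.Phi x : ℝ) : ℂ) * Complex.cos (2 * z * x))
    (two_ne_zero)
  unfold F
  have e : ∀ x : ℝ, ((Phi x : ℝ) : ℂ) * Complex.cos (z * x) =
      2 * (((Pool.Agent.Helper242.RK.Phi (x / 2) : ℝ) : ℂ) * Complex.cos (2 * z * ((x / 2 : ℝ) : ℂ))) := by
    intro x
    rw [Phi_eq]
    have : 2 * z * ((x / 2 : ℝ) : ℂ) = z * x := by push_cast; ring
    rw [this]; push_cast; ring
  simp_rw [e]
  rw [intervalIntegral.integral_const_mul, h, zero_div]
  unfold Pool.Agent.H788R2.Trunc.H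
  rw [Complex.real_smul]
  push_cast
  ring

lemma F_neg (R : ℝ) (z : ℂ) : F R (-z) = F R z := by
  unfold F
  congr 1
  ext x
  rw [neg_mul, Complex.cos_neg]

lemma F_conj (R : ℝ) (z : ℂ) : F R (starRingEnd ℂ z) = starRingEnd ℂ (F R z) := by
  unfold F
  rw [intervalIntegral.intervalIntegral_eq_integral_uIoc,
    intervalIntegral.intervalIntegral_eq_integral_uIoc, Complex.real_smul, Complex.real_smul,
    map_mul, Complex.conj_ofReal, ← integral_conj]
  congr 1
  apply integral_congr_ae
  filter_upwards with x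
  rw [map_mul, Complex.conj_ofReal, ← Complex.cos_conj, map_mul, Complex.conj_ofReal]

/-- `F_R` does not vanish on the imaginary axis. -/
lemma F_I {R : ℝ} (hR : 0 < R) (y : ℝ) : F R ((y : ℂ) * Complex.I) ≠ 0 := by
  rw [F_eq]
  have : 2 * ((y : ℂ) * Complex.I) = ((2 * y : ℝ) : ℂ) * Complex.I := by push_cast; ring
  rw [this, Pool.Agent.H788R2.Trunc.H_I]
  have := Pool.Agent.H788R2.Trunc.gg_pos (R := R / 2) (y := 2 * y) (by linarith)
  have h2 : ((Pool.Agent.H788R2.Trunc.gg (R / 2) (2 * y) : ℝ) : ℂ) ≠ 0 := by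
    exact_mod_cast this.ne'
  exact mul_ne_zero (by norm_num) h2

/-- **Answer to Q1: yes.** For every `R ≥ 10` there is `w` with `Re w ≠ 0 ≠ Im w` such that
`w, -w, conj w, -conj w` are four distinct non-real zeros of `F_R`; so `F_R` has more than two
non-real zeros (more than one pair of complex conjugate non-real zeros). -/
theorem result : ∀ R : ℝ, 10 ≤ R →
    ∃ w : ℂ, w.re ≠ 0 ∧ w.im ≠ 0 ∧
      ∃ S : Finset ℂ, S = {w, -w, starRingEnd ℂ w, -starRingEnd ℂ w} ∧ S.card = 4 ∧
        ∀ z ∈ S, F R z = 0 ∧ z.im ≠ 0 := by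
  intro R hR
  obtain ⟨v, hv, him⟩ := Pool.Agent.H788R2.Trunc.main (R := R / 2) (by linarith)
  have hvim : 0 < v.im := lt_trans (by positivity) him
  set w : ℂ := v / 2 with hw
  have hF : F R w = 0 := by
    rw [F_eq, hw]
    have : 2 * (v / 2) = v := by ring
    rw [this, hv, mul_zero]
  have hwim : 0 < w.im := by
    rw [hw]
    have : (v / 2).im = v.im / 2 := by
      rw [show (2 : ℂ) = ((2 : ℝ) : ℂ) by norm_num, Complex.div_ofReal_im]
    rw [this]; linarith
  have hwre : w.re ≠ 0 := by
    intro h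
    apply F_I (R := R) (by linarith) w.im
    have : ((w.im : ℝ) : ℂ) * Complex.I = w := by
      apply Complex.ext <;> simp [h]
    rw [this]; exact hF
  refine ⟨w, hwre, hwim.ne', _, rfl, ?_, ?_⟩
  · have h1 : w ≠ -w := by
      intro h
      have := congrArg Complex.im h
      rw [Complex.neg_im] at this; linarith
    have h2 : w ≠ starRingEnd ℂ w := by
      intro h
      have := congrArg Complex.im h
      rw [Complex.conj_im] at this; linarith
    have h3 : w ≠ -starRingEnd ℂ w := by
      intro h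
      have := congrArg Complex.re h
      rw [Complex.neg_re, Complex.conj_re] at this
      exact hwre (by linarith)
    have h4 : -w ≠ starRingEnd ℂ w := by
      intro h
      have := congrArg Complex.re h
      rw [Complex.neg_re, Complex.conj_re] at this
      exact hwre (by linarith)
    have h5 : -w ≠ -starRingEnd ℂ w := by
      intro h; exact h2 (neg_injective h)
    have h6 : starRingEnd ℂ w ≠ -starRingEnd ℂ w := by
      intro h
      have := congrArg Complex.im h
      rw [Complex.neg_im, Complex.conj_im] at this; linarith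
    rw [Finset.card_insert_of_notMem, Finset.card_insert_of_notMem, Finset.card_insert_of_notMem,
      Finset.card_singleton]
    · simpa using h6
    · simpa using ⟨h4, fun h => h5 (congrArg Neg.neg h)⟩
    · simpa using ⟨h1, h2, h3⟩
  · intro z hz
    simp only [Finset.mem_insert, Finset.mem_singleton] at hz
    have hc : F R (starRingEnd ℂ w) = 0 := by rw [F_conj, hF, map_zero]
    rcases hz with rfl | rfl | rfl | rfl
    · exact ⟨hF, hwim.ne'⟩
    · exact ⟨by rw [F_neg, hF], by rw [Complex.neg_im]; intro h; linarith⟩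
    · exact ⟨hc, by rw [Complex.conj_im]; intro h; linarith⟩
    · exact ⟨by rw [F_neg, hc], by rw [Complex.neg_im, Complex.conj_im]; intro h; linarith⟩

end Pool.Agent.Results.MP_d99112_an.FourNonrealZeros
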